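import Pool.Agent.H5.DPG.Stmts

set_option autoImplicit false

namespace Pool.DPG

theorem csb_thm : CSBStmt := by
  intro V _ _ k B hB
  have h1 : (B.powerset.filter fun T => T.card < k).card =
      ∑ j ∈ Finset.range k, (8 * k).choose j := by
    have h2 : (B.powerset.filter fun T => T.card < k) =
        (Finset.range k).biUnion fun j => B.powersetCard j := by
      ext T
      simp only [Finset.mem_filter, Finset.mem_powerset, Finset.mem_biUnion, Finset.mem_range,
        Finset.mem_powersetCard]
      constructor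
      · rintro ⟨h, h'⟩
        exact ⟨T.card, h', h, rfl⟩
      · rintro ⟨j, hj, h, rfl⟩
        exact ⟨h, hj⟩
    rw [h2, Finset.card_biUnion]
    · refine Finset.sum_congr rfl fun j _ => ?_
      rw [Finset.card_powersetCard, hB]
    · intro i _ j _ hij
      rw [Function.onFun, Finset.disjoint_left]
      intro T hT hT'
      rw [Finset.mem_powersetCard] at hT hT'
      exact hij (hT.2.symm.trans hT'.2)
  rw [h1]
  have h3 : (∑ j ∈ Finset.range k, ((8 * k).choose j : ℝ)) ≤ (24 : ℝ) ^ k := by
    have h4 : ∀ j ∈ Finset.range k, ((8 * k).choose j : ℝ) ≤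
        4 ^ k * ((1 / 4 : ℝ) ^ j * 1 ^ (8 * k - j) * (8 * k).choose j) := by
      intro j hj
      rw [Finset.mem_range] at hj
      have h5 : (1 : ℝ) ≤ 4 ^ k * (1 / 4 : ℝ) ^ j := by
        have : (4 : ℝ) ^ k * (1 / 4 : ℝ) ^ j = 4 ^ (k - j) := by
          rw [one_div, inv_pow, ← div_eq_mul_inv, pow_sub₀ _ (by norm_num) hj.le,
            div_eq_mul_inv]
        rw [this]
        exact one_le_pow₀ (by norm_num)
      have h6 : (0 : ℝ) ≤ (8 * k).choose j := Nat.cast_nonneg _
      calc ((8 * k).choose j : ℝ) = 1 * (8 * k).choose j := by ring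
        _ ≤ (4 ^ k * (1 / 4 : ℝ) ^ j) * (8 * k).choose j := mul_le_mul_of_nonneg_right h5 h6
        _ = _ := by ring
    calc (∑ j ∈ Finset.range k, ((8 * k).choose j : ℝ))
        ≤ ∑ j ∈ Finset.range k, 4 ^ k * ((1 / 4 : ℝ) ^ j * 1 ^ (8 * k - j) * (8 * k).choose j) :=
          Finset.sum_le_sum h4
      _ ≤ ∑ j ∈ Finset.range (8 * k + 1),
          4 ^ k * ((1 / 4 : ℝ) ^ j * 1 ^ (8 * k - j) * (8 * k).choose j) := by
          refine Finset.sum_le_sum_of_subset_of_nonneg ?_ ?_
          · intro j hj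
            rw [Finset.mem_range] at hj ⊢
            omega
          · intro j _ _
            positivity
      _ = 4 ^ k * (1 / 4 + 1) ^ (8 * k) := by
          rw [← Finset.mul_sum, ← add_pow]
      _ = (4 * (5 / 4) ^ 8) ^ k := by
          rw [mul_pow, ← pow_mul]
          norm_num
      _ ≤ (24 : ℝ) ^ k := by
          refine pow_le_pow_left₀ (by norm_num) (by norm_num) k
  have h7 : (∑ j ∈ Finset.range k, (8 * k).choose j) ≤ 24 ^ k := by
    exact_mod_cast h3
  refine h7.trans ?_
  rw [pow_mul]
  exact Nat.pow_le_pow_left (by norm_num) k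

end Pool.DPG
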