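import Pool.Agent.H5.DPG.ZSS

/-!
Row FDS of the board `dpg`: the regions which are found (copy of `H93/DPG/FDS.lean`).
-/

set_option autoImplicit false

namespace Pool.DPG

open TMLib Pool.PG

theorem fds5_congr {V : Type} {own : V → Bool} {pri : V → ℕ} {E : V → V → Prop} {S : Finset V}
    {W W' : V → Bool} {σ : V → V} (h : SolS own pri E S W σ) (hW : ∀ v ∈ S, W' v = W v) :
    SolS own pri E S W' σ where
  mem := h.mem
  stay := fun v hv ho => by
    rw [hW v hv] at ho ⊢
    rw [hW _ (h.mem v hv).1]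
    exact h.stay v hv ho
  trap := fun v hv ho w hw hE => by
    rw [hW v hv] at ho ⊢
    rw [hW w hw]
    exact h.trap v hv ho w hw hE
  won := fun v hv x hx h1 h2 => by
    rw [hW v hv] at h2 ⊢
    exact h.won v hv x hx h1 h2

theorem fds5_thm (h1 : DMAStmt) (h2 : ZRMStmt) (h3 : ATLStmt) (h4 : FSBStmt) (h5 : DSBStmt)
    (h6 : BRSStmt) : FDSStmt := by
  classical
  intro c g X hX q hq
  obtain ⟨f1, f2, f3, f4⟩ := h4
  obtain ⟨s, j, hj, hany⟩ : ∃ (s : ℕ) (j : Bool), q = (j, cnd c g X j s) ∧
      (q.2.any fun b => b) = true := by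
    unfold fnd at hq
    rw [List.mem_filter, List.mem_flatMap] at hq
    obtain ⟨⟨s, _, hs⟩, hany⟩ := hq
    rcases List.mem_cons.1 hs with h | h
    · exact ⟨s, true, h, hany⟩
    · rw [List.mem_singleton] at h
      exact ⟨s, false, h, hany⟩
  subst hj
  have hany' : ((cnd c g X j s).any fun b => b) = true := hany
  change (fs g (att j g X (cnd c g X j s))).Nonempty ∧
    Dmn (own g) (pri g) (fun v w => w ∈ suc g v) (fs g X) j (fs g (att j g X (cnd c g X j s))) ∧
    ∀ L : List Bool, L ≠ [] → Lab g (dif g X (att j g X (cnd c g X j s))) L →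
      Lab g X (jn g j (att j g X (cnd c g X j s)) L)
  have hne : bru c g (Yj g X j s) ≠ [] := by
    intro h0
    rw [cnd, if_pos h0] at hany'
    simp at hany'
  have hcnd : cnd c g X j s = msk g.length fun v => (Yj g X j s).getD v false &&
      ((bru c g (Yj g X j s)).getD v false == j) := by
    rw [cnd, if_neg hne]
  have hlen : (cnd c g X j s).length = g.length := by
    rw [hcnd]
    exact (f1 g _).1
  obtain ⟨hYs, hYt⟩ := h5 g (!j) X (dif g X (Tj g X j s)) hX
  change Sub g (Yj g X j s) at hYs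
  obtain ⟨_, σ, hσ⟩ := h6 c g (Yj g X j s) hYs hne
  have hYX : fs g (Yj g X j s) ⊆ fs g X := by
    rw [Yj, f2]
    exact Finset.sdiff_subset
  have hfs : fs g X ∩ fs g (cnd c g X j s) =
      (fs g (Yj g X j s)).filter fun v => (bru c g (Yj g X j s)).getD v false = j := by
    ext v
    rw [Finset.mem_inter, hcnd, (f1 g _).2, Finset.mem_filter, Finset.mem_filter, Finset.mem_range,
      Bool.and_eq_true, beq_iff_eq]
    constructor
    · rintro ⟨_, h, h', h''⟩
      exact ⟨Finset.mem_filter.2 ⟨Finset.mem_range.2 h, h'⟩, h''⟩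
    · rintro ⟨h, h'⟩
      have h8 := Finset.mem_filter.1 h
      exact ⟨hYX h, Finset.mem_range.1 h8.1, h8.2, h'⟩
  obtain ⟨hal, hatr⟩ := h3 g j X (cnd c g X j s) hX.1
  rw [hfs] at hatr
  have hdmn : Dmn (own g) (pri g) (fun v w => w ∈ suc g v) (fs g X) j
      (fs g (att j g X (cnd c g X j s))) := by
    refine h1 ℕ (own g) (pri g) (fun v w => w ∈ suc g v) (fs g X) (fs g (Yj g X j s)) _ j _ σ
      hX.2 hYX ?_ hσ hatr
    intro v hv ho w hw hE
    refine hYt v hv ?_ w hw hE
    cases hj : j <;> cases ho' : own g v <;> simp_all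
  refine ⟨?_, hdmn, ?_⟩
  · obtain ⟨v, hv⟩ := ((f3 g (cnd c g X j s) hlen).2.1 hany')
    refine ⟨v, hatr.1 ?_⟩
    rw [← hfs, Finset.mem_inter]
    refine ⟨?_, hv⟩
    rw [hcnd, (f1 g _).2, Finset.mem_filter, Finset.mem_range, Bool.and_eq_true] at hv
    exact hYX (Finset.mem_filter.2 ⟨Finset.mem_range.2 hv.1, hv.2.1⟩)
  · intro L hL ⟨hLl, τ, hτ⟩
    rw [f2] at hτ
    obtain ⟨σ', hσ'⟩ := h2 ℕ (own g) (pri g) (fun v w => w ∈ suc g v) (fs g X) _ j
      (fun v => L.getD v false) τ hdmn hatr.2.2.2.1 (zss5_inst _ _ hτ)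
    have hjn : jn g j (att j g X (cnd c g X j s)) L = msk g.length fun v =>
        if (att j g X (cnd c g X j s)).getD v false = true then j else L.getD v false := by
      rw [jn, if_neg hL]
    refine ⟨by rw [hjn]; exact (f1 g _).1, σ', fds5_congr hσ' ?_⟩
    intro v hv
    have hvl : v < g.length := Finset.mem_range.1 (Finset.mem_filter.1 hv).1
    rw [hjn]
    have e1 : (msk g.length fun v => if (att j g X (cnd c g X j s)).getD v false = true then j
        else L.getD v false).getD v false =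
        if (att j g X (cnd c g X j s)).getD v false = true then j else L.getD v false := by
      unfold msk
      rw [List.getD_eq_getElem?_getD, List.getElem?_map, List.getElem?_range hvl]
      rfl
    rw [e1]
    by_cases hm : v ∈ fs g (att j g X (cnd c g X j s))
    · rw [if_pos (Finset.mem_filter.1 hm).2, if_pos hm]
    · rw [if_neg hm, if_neg]
      intro h
      exact hm (Finset.mem_filter.2 ⟨Finset.mem_range.2 hvl, h⟩)

end Pool.DPG
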