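import Pool.Agent.H5.DPG.Stmts

set_option autoImplicit false

namespace Pool.DPG

open Filter TMLib Pool.PG

open Classical in
/-- The theorem, with all powers of `n`. -/
def FI2Stmt : Prop :=
  ∃ A : Game → List Bool, N68a2faeb.IsPolyTime A ∧
    (∀ g : Game, Valid g → A g ≠ [] → (A g).length = g.length ∧
      ∀ v < g.length, Win g ((A g).getD v false) v) ∧
    ∀ m : ℕ, ∃ C : ℝ, ∀ n : ℕ, (n : ℝ) ^ m * (Finset.univ.filter fun E : Fin n → Fin n → Bool =>
      ∃ (o : Fin n → Bool) (p : Fin n → ℕ), A (dgame o p E) = []).card ≤ C * 2 ^ (n * n)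

lemma fi2_def (g : Game) : msk g.length (fun _ => true) =
    (List.range g.length).map fun _ => true := rfl

lemma fi2_msk : PTime (fun g : Game => msk g.length fun _ => true) := by
  simp only [fi2_def]
  exact PTime.map (l := fun g : Game => List.range g.length) (g := fun _ _ => true)
    (PTime.range (PTime.length PTime.id)) (PTime.const true)

lemma fi2_sv (hPBR : PBRStmt) (hPLV : PLVStmt) (c : ℕ) : PTime (sv c) := by
  have h1 : PTime (fun p : Game × List Bool => lev c (lev c (bru c)) p.1 p.2) :=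
    hPLV c _ (hPLV c _ (hPBR c))
  have h3 : PTime (fun g : Game => lev c (lev c (bru c)) g (msk g.length fun _ => true)) :=
    PTime.comp (g := fun p : Game × List Bool => lev c (lev c (bru c)) p.1 p.2)
      (f := fun g : Game => (g, msk g.length fun _ => true)) h1
      (PTime.pair (f := fun g : Game => g) (g := fun g : Game => msk g.length fun _ => true)
        PTime.id fi2_msk)
  have e : sv c = fun g : Game => lev c (lev c (bru c)) g (msk g.length fun _ => true) := by
    funext g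
    unfold sv
    rfl
  rw [e]
  exact h3

open Classical in
lemma fi2_cover (hLV2 : LV2Stmt) (hCMG : CMGStmt) (n : ℕ) (hn : 0 < n) :
    (Finset.univ.filter fun E : Fin n → Fin n → Bool =>
      ∃ (o : Fin n → Bool) (p : Fin n → ℕ), sv 576 (cmp (dgame o p E)) = []) ⊆
    (Finset.univ.filter fun E : Fin n → Fin n → Bool => ¬ DenE (4 * (Nat.log 2 n + 1)) E) ∪
    (Finset.univ.filter fun E : Fin n → Fin n → Bool => ∃ v, ∀ w, E v w = false) := by
  intro E hE
  rw [Finset.mem_filter] at hE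
  obtain ⟨-, o, p, hop⟩ := hE
  rw [Finset.mem_union, Finset.mem_filter, Finset.mem_filter]
  by_contra hcon
  push Not at hcon
  have h1 : DenE (4 * (Nat.log 2 n + 1)) E := hcon.1 (Finset.mem_univ _)
  have h2 : ∀ v, ∃ w, E v w = true := by
    intro v
    obtain ⟨w, hw⟩ := hcon.2 (Finset.mem_univ _) v
    exact ⟨w, by simpa using hw⟩
  obtain ⟨hlen, hden, hval⟩ := hCMG n _ o p E h1 h2
  refine hLV2 576 _ (4 * (Nat.log 2 n + 1)) (by rw [hlen]; exact hn) (by omega) hden ?_ hval hop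
  rw [hlen]
  set l := Nat.log 2 n + 1 with hl
  have h3 : 2 ^ l ≤ 2 * n := by
    rw [hl, pow_succ, mul_comm]
    exact Nat.mul_le_mul_left 2 (Nat.pow_log_le_self 2 hn.ne')
  calc 2 ^ (72 * (4 * l)) = (2 ^ l) ^ 288 := by rw [← pow_mul]; congr 1; ring
    _ ≤ (2 * n) ^ 288 := Nat.pow_le_pow_left h3 _
    _ ≤ ((n + 2) ^ 2) ^ 288 := Nat.pow_le_pow_left (by nlinarith) _
    _ = (n + 2) ^ 576 := by rw [← pow_mul]

theorem fi2_thm (hTOP : TOPStmt) (hLV2 : LV2Stmt) (hPLV : PLVStmt) (hPBR : PBRStmt)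
    (hCMG : CMGStmt) (hCDN : CDNStmt) (hCNS : CNSStmt) (hBOT : BOTStmt) (hCMW : CMWStmt) :
    FI2Stmt := by
  classical
  refine ⟨fun g => sv 576 (cmp g), hBOT.1 (List Bool) (sv 576) (fi2_sv hPBR hPLV 576), ?_, ?_⟩
  · intro g hg hne
    obtain ⟨hv, hw⟩ := hCMW g hg
    have hlen : (Pool.PG.cmp g).length = g.length := by simp [Pool.PG.cmp]
    obtain ⟨h1, h2⟩ := hTOP 576 (cmp g) hv hne
    refine ⟨h1.trans hlen, fun v hvl => ?_⟩
    exact (hw v hvl _).1 (h2 v (by rw [hlen]; exact hvl))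
  · intro m
    obtain ⟨C₀, hC₀⟩ := (tendsto_pow_const_div_const_pow_of_one_lt (m + 1)
      (one_lt_two : (1 : ℝ) < 2)).bddAbove_range
    have hC₁ : ∀ n : ℕ, (n : ℝ) ^ (m + 1) ≤ C₀ * 2 ^ n := by
      intro n
      have := hC₀ ⟨n, rfl⟩
      rwa [div_le_iff₀ (by positivity)] at this
    have hC0 : 0 ≤ C₀ := by
      have := hC₁ 0
      simpa using this
    refine ⟨2 * 2 ^ ((m + 1) * (m + 1)) + C₀ + 1, fun n => ?_⟩
    have hpos : (0 : ℝ) < 2 ^ (n * n) := by positivity
    rcases Nat.eq_zero_or_pos n with hn | hn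
    · subst hn
      have h1 : (Finset.univ.filter fun E : Fin 0 → Fin 0 → Bool =>
          ∃ (o : Fin 0 → Bool) (p : Fin 0 → ℕ),
            (fun g => sv 576 (cmp g)) (dgame o p E) = []).card ≤ 1 := by
        refine (Finset.card_le_univ _).trans ?_
        simp
      have h2 : ((0 : ℕ) : ℝ) ^ m ≤ 1 := by
        rcases Nat.eq_zero_or_pos m with h | h
        · subst h; simp
        · rw [Nat.cast_zero, zero_pow h.ne']; norm_num
      have h3 : (0 : ℝ) ≤ 2 * 2 ^ ((m + 1) * (m + 1)) + C₀ := by positivity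
      have h4 : ((Finset.univ.filter fun E : Fin 0 → Fin 0 → Bool =>
          ∃ (o : Fin 0 → Bool) (p : Fin 0 → ℕ),
            (fun g => sv 576 (cmp g)) (dgame o p E) = []).card : ℝ) ≤ 1 := by exact_mod_cast h1
      have h5 := mul_le_mul h2 h4 (Nat.cast_nonneg _) zero_le_one
      simp only [Nat.mul_zero, pow_zero, mul_one] at h5 ⊢
      linarith
    · set l := Nat.log 2 n + 1 with hl
      have hnl : n < 2 ^ l := Nat.lt_pow_succ_log_self (by norm_num) n
      set F₁ := Finset.univ.filter fun E : Fin n → Fin n → Bool => ¬ DenE (4 * l) E with hF₁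
      set F₂ := Finset.univ.filter fun E : Fin n → Fin n → Bool => ∃ v, ∀ w, E v w = false
        with hF₂
      have hcov := Finset.card_le_card (fi2_cover hLV2 hCMG n hn)
      have hcard : ((Finset.univ.filter fun E : Fin n → Fin n → Bool =>
          ∃ (o : Fin n → Bool) (p : Fin n → ℕ),
            (fun g => sv 576 (cmp g)) (dgame o p E) = []).card : ℝ) ≤ F₁.card + F₂.card := by
        have := hcov.trans (Finset.card_union_le _ _)
        have h' : (Finset.univ.filter fun E : Fin n → Fin n → Bool =>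
          ∃ (o : Fin n → Bool) (p : Fin n → ℕ),
            (fun g => sv 576 (cmp g)) (dgame o p E) = []).card ≤ F₁.card + F₂.card := by
          convert this
        exact_mod_cast h'
      have hn0 : (0 : ℝ) ≤ (n : ℝ) ^ m := by positivity
      -- the first set
      have h1 : (2 : ℝ) ^ (12 * l * l) * F₁.card ≤ 2 * n * 2 ^ (n * n) := by
        have := hCDN n l (by omega) hnl
        have h' : 2 ^ (12 * l * l) * F₁.card ≤ 2 * n * 2 ^ (n * n) := by convert this
        exact_mod_cast h'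
      have hpow : (n : ℝ) ^ (m + 1) ≤ 2 ^ ((m + 1) * (m + 1)) * 2 ^ (12 * l * l) := by
        have hn1 : (n : ℝ) ≤ 2 ^ l := by exact_mod_cast hnl.le
        calc (n : ℝ) ^ (m + 1) ≤ (2 ^ l) ^ (m + 1) := pow_le_pow_left₀ (Nat.cast_nonneg _) hn1 _
          _ = 2 ^ (l * (m + 1)) := by rw [← pow_mul]
          _ ≤ 2 ^ ((m + 1) * (m + 1) + 12 * l * l) := by
              refine pow_le_pow_right₀ (by norm_num) ?_
              rcases le_total l (m + 1) with h | h
              · nlinarith [Nat.mul_le_mul_right (m + 1) h]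
              · nlinarith [Nat.mul_le_mul_left l h]
          _ = _ := by rw [pow_add]
      have h2 : (n : ℝ) ^ m * F₁.card ≤ 2 * 2 ^ ((m + 1) * (m + 1)) * 2 ^ (n * n) := by
        have hp12 : (0 : ℝ) < 2 ^ (12 * l * l) := by positivity
        have h3 : 2 ^ (12 * l * l) * ((n : ℝ) ^ m * F₁.card) ≤
            2 ^ (12 * l * l) * (2 * 2 ^ ((m + 1) * (m + 1)) * 2 ^ (n * n)) := by
          calc 2 ^ (12 * l * l) * ((n : ℝ) ^ m * F₁.card)
              = (n : ℝ) ^ m * (2 ^ (12 * l * l) * F₁.card) := by ring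
            _ ≤ (n : ℝ) ^ m * (2 * n * 2 ^ (n * n)) := mul_le_mul_of_nonneg_left h1 hn0
            _ = 2 * 2 ^ (n * n) * (n : ℝ) ^ (m + 1) := by ring
            _ ≤ 2 * 2 ^ (n * n) * (2 ^ ((m + 1) * (m + 1)) * 2 ^ (12 * l * l)) :=
                mul_le_mul_of_nonneg_left hpow (by positivity)
            _ = _ := by ring
        exact le_of_mul_le_mul_left h3 hp12
      -- the second set
      have h4 : (2 : ℝ) ^ n * F₂.card ≤ n * 2 ^ (n * n) := by
        have := hCNS n
        have h' : 2 ^ n * F₂.card ≤ n * 2 ^ (n * n) := by convert this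
        exact_mod_cast h'
      have h5 : (n : ℝ) ^ m * F₂.card ≤ C₀ * 2 ^ (n * n) := by
        have hp2 : (0 : ℝ) < 2 ^ n := by positivity
        have h6 : 2 ^ n * ((n : ℝ) ^ m * F₂.card) ≤ 2 ^ n * (C₀ * 2 ^ (n * n)) := by
          calc 2 ^ n * ((n : ℝ) ^ m * F₂.card) = (n : ℝ) ^ m * (2 ^ n * F₂.card) := by ring
            _ ≤ (n : ℝ) ^ m * (n * 2 ^ (n * n)) := mul_le_mul_of_nonneg_left h4 hn0
            _ = (n : ℝ) ^ (m + 1) * 2 ^ (n * n) := by ring
            _ ≤ C₀ * 2 ^ n * 2 ^ (n * n) := mul_le_mul_of_nonneg_right (hC₁ n) hpos.le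
            _ = _ := by ring
        exact le_of_mul_le_mul_left h6 hp2
      calc (n : ℝ) ^ m * (Finset.univ.filter fun E : Fin n → Fin n → Bool =>
          ∃ (o : Fin n → Bool) (p : Fin n → ℕ),
            (fun g => sv 576 (cmp g)) (dgame o p E) = []).card
          ≤ (n : ℝ) ^ m * (F₁.card + F₂.card) := mul_le_mul_of_nonneg_left hcard hn0
        _ = (n : ℝ) ^ m * F₁.card + (n : ℝ) ^ m * F₂.card := by ring
        _ ≤ 2 * 2 ^ ((m + 1) * (m + 1)) * 2 ^ (n * n) + C₀ * 2 ^ (n * n) := add_le_add h2 h5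
        _ ≤ (2 * 2 ^ ((m + 1) * (m + 1)) + C₀ + 1) * 2 ^ (n * n) := by nlinarith

end Pool.DPG
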