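import Pool.Agent.H5.DPG.Stmts

/-! # Board dpg, row ZSS (copy of `H25/DPG/ZSS.lean` without `convert`) -/

set_option autoImplicit false

namespace Pool.DPG

open Filter TMLib Pool.PG

theorem zss5_congr {V : Type} {own : V → Bool} {pri : V → ℕ} {E : V → V → Prop} {S : Finset V}
    {W W' : V → Bool} {σ : V → V} (h : SolS own pri E S W σ) (hW : ∀ v ∈ S, W' v = W v) :
    SolS own pri E S W' σ := by
  refine ⟨h.mem, fun v hv ho => ?_, fun v hv ho w hw he => ?_, fun v hv x h0 h1 h2 => ?_⟩
  · rw [hW v hv] at ho ⊢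
    rw [hW _ (h.mem v hv).1]
    exact h.stay v hv ho
  · rw [hW v hv] at ho ⊢
    rw [hW w hw]
    exact h.trap v hv ho w hw he
  · rw [hW v hv] at h2 ⊢
    exact h.won v hv x h0 h1 h2

theorem zss5_fs (g : Game) (X : List Bool) (v : ℕ) :
    v ∈ fs g X ↔ v < g.length ∧ X.getD v false = true := by
  unfold fs
  rw [Finset.mem_filter, Finset.mem_range]

theorem zss5_msk (n : ℕ) (f : ℕ → Bool) (v : ℕ) (h : v < n) : (msk n f).getD v false = f v := by
  unfold msk
  simp [List.getD_eq_getElem?_getD, h]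

theorem zss5_inst {own : ℕ → Bool} {pri : ℕ → ℕ} {E : ℕ → ℕ → Prop} {S B : Finset ℕ}
    {W : ℕ → Bool} {σ : ℕ → ℕ} (i₁ i₂ : DecidableEq ℕ)
    (h : SolS own pri E (@SDiff.sdiff _ (@Finset.instSDiff ℕ i₁) S B) W σ) :
    SolS own pri E (@SDiff.sdiff _ (@Finset.instSDiff ℕ i₂) S B) W σ := by
  have e : i₁ = i₂ := Subsingleton.elim _ _
  subst e
  exact h

theorem zss5_mem {S B : Finset ℕ} {v : ℕ} (i₁ i₂ : DecidableEq ℕ)
    (h : v ∈ @SDiff.sdiff _ (@Finset.instSDiff ℕ i₁) S B) :
    v ∈ @SDiff.sdiff _ (@Finset.instSDiff ℕ i₂) S B := by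
  have e : i₁ = i₂ := Subsingleton.elim _ _
  subst e
  exact h

theorem zss5_thm (h1 : ZRMStmt) (h2 : ZTPStmt) (h3 : ATLStmt) (h4 : FSBStmt) (h5 : DSBStmt)
    (h6 : MPRStmt) (h7 : BDMStmt) : ZSSStmt := by
  intro g S X L hX hne hL hS hz
  have hL0 : L ≠ [] := by
    rintro rfl
    apply hz
    unfold zs
    rw [if_pos rfl]
  have hLab := hL hL0
  by_cases hb : ((bad g X L).any fun b => b) = false
  · obtain ⟨_, σ, hσ⟩ := hLab
    have hzs : zs g S X L = msk g.length fun _ => pl g X := by
      unfold zs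
      rw [if_neg hL0, if_pos hb]
    rw [hzs]
    have hM := h6 g X hne
    have hA := (h3 g (pl g X) X (tp g X) hX.1).2
    have e1 : fs g X ∩ fs g (tp g X) = (fs g X).filter (fun v => pri g v = mp g X) := by
      rw [hM.2.1]
      ext v
      simp
    rw [e1] at hA
    rw [h4.2.1] at hσ
    have hW : ∀ v ∈ fs g X \ fs g (nA g X), L.getD v false = pl g X := by
      intro v hv
      by_contra hcon
      rw [← h4.2.1, zss5_fs] at hv
      unfold bad msk at hb
      rw [List.any_map, List.any_eq_false] at hb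
      have h8 := hb v (List.mem_range.2 hv.1)
      apply h8
      show ((dif g X (nA g X)).getD v false && (L.getD v false != pl g X)) = true
      rw [hv.2, Bool.true_and, bne_iff_ne]
      exact hcon
    obtain ⟨σ', hσ'⟩ := h2 ℕ (own g) (pri g) (fun v w => w ∈ suc g v) (fs g X)
      (fs g (nA g X)) (pl g X) (mp g X) (fun v => L.getD v false) σ hX.2 hM.1 hM.2.2.2
      (by
        unfold nA
        exact hA)
      (zss5_inst _ _ hσ)
      (by
        intro v hv
        exact hW v (zss5_mem _ _ hv))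
    refine ⟨(h4.1 g _).1, σ', zss5_congr hσ' fun v hv => ?_⟩
    exact zss5_msk _ _ _ ((zss5_fs g X v).1 hv).1
  · have hzs : zs g S X L = jn g (!pl g X) (att (!pl g X) g X (bad g X L))
        (S (dif g X (att (!pl g X) g X (bad g X L)))) := by
      unfold zs
      rw [if_neg hL0, if_neg hb]
    rw [hzs] at hz ⊢
    have hS0 : S (dif g X (att (!pl g X) g X (bad g X L))) ≠ [] := by
      intro h
      apply hz
      unfold jn
      rw [if_pos h]
    have hsub := (h5 g (!pl g X) X (bad g X L) hX).1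
    obtain ⟨_, τ, hτ⟩ := hS _ hsub hS0
    have hD := (h7 g X L hX hLab).1
    have hAt := (h3 g (!pl g X) X (bad g X L) hX.1).2
    rw [h4.2.1] at hτ
    obtain ⟨σ', hσ'⟩ := h1 ℕ (own g) (pri g) (fun v w => w ∈ suc g v) (fs g X)
      (fs g (att (!pl g X) g X (bad g X L))) (!pl g X)
      (fun v => (S (dif g X (att (!pl g X) g X (bad g X L)))).getD v false) τ hD
      (fun v hv hvB ho w hw he => hAt.2.2.2.1 v hv hvB ho w hw he) (zss5_inst _ _ hτ)
    have hj : jn g (!pl g X) (att (!pl g X) g X (bad g X L))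
        (S (dif g X (att (!pl g X) g X (bad g X L)))) = msk g.length fun v =>
          if (att (!pl g X) g X (bad g X L)).getD v false = true then !pl g X
          else (S (dif g X (att (!pl g X) g X (bad g X L)))).getD v false := by
      unfold jn
      rw [if_neg hS0]
    rw [hj]
    refine ⟨(h4.1 g _).1, σ', zss5_congr hσ' fun v hv => ?_⟩
    have hv1 := ((zss5_fs g X v).1 hv).1
    show (msk g.length fun v =>
          if (att (!pl g X) g X (bad g X L)).getD v false = true then !pl g X
          else (S (dif g X (att (!pl g X) g X (bad g X L)))).getD v false).getD v false = _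
    rw [zss5_msk _ _ _ hv1]
    have h9 := zss5_fs g (att (!pl g X) g X (bad g X L)) v
    by_cases h10 : (att (!pl g X) g X (bad g X L)).getD v false = true
    · rw [if_pos h10, if_pos (h9.2 ⟨hv1, h10⟩)]
    · rw [if_neg h10, if_neg fun h => h10 (h9.1 h).2]

end Pool.DPG
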