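import Pool.Agent.H59.PG.AllC
import Pool.Agent.H5.DPG.CSB
import Pool.Agent.H5.DPG.FI2
import Pool.Agent.H14.DPG.SBS
import Pool.Agent.H16.DPG.DMW
import Pool.Agent.H16.DPG.ZTP
import Pool.Agent.H19.DPG.CMG
import Pool.Agent.H2.DPG.BYJ
import Pool.Agent.H2.DPG.TOP
import Pool.Agent.H21.DPG.MPR
import Pool.Agent.H23.DPG.ATL
import Pool.Agent.H25.DPG.BIG
import Pool.Agent.H25.DPG.SMD
import Pool.Agent.H5.DPG.ZSS
import Pool.Agent.H26.DPG.LVC
import Pool.Agent.H27.DPG.BRC
import Pool.Agent.H27.DPG.LV1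
import Pool.Agent.H27.DPG.LV2
import Pool.Agent.H44.DPG.BDM
import Pool.Agent.H46.DPG.CNS
import Pool.Agent.H46.DPG.CRW
import Pool.Agent.H48.DPG.PLV
import Pool.Agent.H50.DPG.BRS
import Pool.Agent.H50.DPG.PUP
import Pool.Agent.H53.DPG.TRP
import Pool.Agent.H56.DPG.FSB
import Pool.Agent.H64.DPG.RCS
import Pool.Agent.H66.DPG.DMA
import Pool.Agent.H66.DPG.PFN
import Pool.Agent.H70.DPG.BTJ
import Pool.Agent.H72.DPG.TJC
import Pool.Agent.H74.DPG.CDN
import Pool.Agent.H81.DPG.PMA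
import Pool.Agent.H81.DPG.ZRM
import Pool.Agent.H85.DPG.DSB
import Pool.Agent.H90.DPG.PBR
import Pool.Agent.H91.DPG.PZS
import Pool.Agent.H5.DPG.FDS
import Pool.Agent.H93.DPG.PSB

/-!
# Parity games on almost all directed graphs: assembly
-/

set_option autoImplicit false

namespace Pool.DPG

open Pool.PG

theorem dsb_all : DSBStmt := dsb_thm atl_thm fsb_thm

theorem mpr_all : MPRStmt := mpr_thm fsb_thm

theorem bdm_all : BDMStmt := bdm_thm dma_thm atl_thm fsb_thm dsb_all

theorem zss_all : ZSSStmt := zss5_thm zrm_thm ztp_thm atl_thm fsb_thm dsb_all mpr_all bdm_all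

theorem brs_all : BRSStmt := brs_thm zss_all fsb_thm dsb_all

theorem brc_all : BRCStmt := brc_thm sbs_thm atl_thm fsb_thm dsb_all mpr_all

theorem fds_all : FDSStmt := fds5_thm dma_thm zrm_thm atl_thm fsb_thm dsb_all brs_all

theorem rcs_all : RCSStmt := rcs_thm fds_all zss_all dsb_all brs_all fsb_thm brc_all

theorem smd_all : SMDStmt :=
  smd_thm (tjc_thm fsb_thm) (btj_thm fsb_thm) (byj_thm atl_thm fsb_thm) fsb_thm dsb_all brc_all
    brs_all dmw_thm atl_thm

theorem lvc_all : LVCStmt :=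
  lvc_thm smd_all bdm_all fds_all rcs_all brc_all dsb_all atl_thm fsb_thm mpr_all

theorem lv1_all : LV1Stmt := lv1_thm lvc_all (trp_thm big_thm) brc_all brs_all fsb_thm

theorem lv2_all : LV2Stmt := lv2_thm lvc_all lv1_all big_thm rcs_all brs_all fsb_thm

theorem top_all : TOPStmt := top_thm rcs_all brs_all fsb_thm win_row

theorem pma_all : PMAStmt := pma_thm pv1_row

theorem pzs_all : PZSStmt := pzs_thm pma_all

theorem pbr_all : PBRStmt := pbr_thm pzs_all psb_thm pma_all sbs_thm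

theorem pfn_all : PFNStmt := pfn_thm pma_all pbr_all pv1_row

theorem pup_all : PUPStmt := pup_thm pfn_all pzs_all pbr_all pma_all

theorem plv_all : PLVStmt := plv_thm pup_all pfn_all

theorem cdn_all : CDNStmt := cdn_thm (crw_thm csb_thm)

theorem fi2_all : FI2Stmt :=
  fi2_thm top_all lv2_all plv_all pbr_all cmg_thm cdn_all cns_thm bot_all cmw

end Pool.DPG
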