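import Pool.Agent.H5.DPG.Graph
import Pool.Agent.H5.DPG.All

/-!
# Parity games on almost all directed graphs: the theorem for `graphGame`
-/

set_option autoImplicit false

namespace Pool.DPG

open Pool.PG

theorem graphGame_eq {n : ℕ} (o : Fin n → Bool) (p : Fin n → ℕ) (E : Fin n → Fin n → Bool) :
    graphGame o p E = dgame o p E := by
  unfold graphGame dgame
  congr 1
  funext v
  congr 1
  simp [List.map_eq_flatMap]

open Classical in
theorem fi3_all :
    ∃ A : Game → List Bool, N68a2faeb.IsPolyTime A ∧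
      (∀ g : Game, Valid g → A g ≠ [] → (A g).length = g.length ∧
        ∀ v < g.length, Win g ((A g).getD v false) v) ∧
      ∀ m : ℕ, ∃ C : ℝ, ∀ n : ℕ, (n : ℝ) ^ m * (Finset.univ.filter fun E : Fin n → Fin n → Bool =>
        ∃ (o : Fin n → Bool) (p : Fin n → ℕ), A (graphGame o p E) = []).card ≤ C * 2 ^ (n * n) := by
  obtain ⟨A, h1, h2, h3⟩ := fi2_all
  refine ⟨A, h1, h2, ?_⟩
  simp only [graphGame_eq]
  exact h3

end Pool.DPG
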