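import Pool.Agent.H5.DPG.Stmts

set_option autoImplicit false

namespace Pool.DPG

open Classical in
theorem cns_thm : CNSStmt := by
  intro n
  have hsub : (Finset.univ.filter fun E : Fin n → Fin n → Bool => ∃ v, ∀ w, E v w = false) ⊆
      Finset.univ.biUnion fun v : Fin n =>
        Fintype.piFinset fun u : Fin n =>
          if u = v then {fun _ => false} else (Finset.univ : Finset (Fin n → Bool)) := by
    intro E hE
    rw [Finset.mem_filter] at hE
    obtain ⟨-, v, hv⟩ := hE
    rw [Finset.mem_biUnion]
    refine ⟨v, Finset.mem_univ _, ?_⟩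
    rw [Fintype.mem_piFinset]
    intro u
    by_cases h : u = v
    · subst h
      rw [if_pos rfl, Finset.mem_singleton]
      funext w
      exact hv w
    · rw [if_neg h]
      exact Finset.mem_univ _
  have hcard : ∀ v : Fin n, 2 ^ n * (Fintype.piFinset fun u : Fin n =>
      if u = v then ({fun _ => false} : Finset (Fin n → Bool)) else Finset.univ).card =
      2 ^ (n * n) := by
    intro v
    rw [Fintype.card_piFinset]
    have h1 : ∀ u : Fin n, (if u = v then ({fun _ => false} : Finset (Fin n → Bool))
        else Finset.univ).card = if u = v then 1 else 2 ^ n := by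
      intro u
      by_cases h : u = v
      · rw [if_pos h, if_pos h, Finset.card_singleton]
      · rw [if_neg h, if_neg h, Finset.card_univ, Fintype.card_fun, Fintype.card_bool,
          Fintype.card_fin]
    rw [Finset.prod_congr rfl fun u _ => h1 u]
    rw [Finset.prod_ite, Finset.prod_const_one, one_mul, Finset.prod_const]
    have h2 : (Finset.univ.filter fun u : Fin n => ¬ u = v).card = n - 1 := by
      rw [Finset.filter_ne' Finset.univ v, Finset.card_erase_of_mem (Finset.mem_univ v),
        Finset.card_univ, Fintype.card_fin]
    rw [h2, ← pow_mul, ← pow_add]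
    congr 1
    have hn : 0 < n := lt_of_le_of_lt (Nat.zero_le _) v.2
    obtain ⟨m, rfl⟩ : ∃ m, n = m + 1 := ⟨n - 1, by omega⟩
    simp only [Nat.add_sub_cancel]
    ring
  calc 2 ^ n * (Finset.univ.filter fun E : Fin n → Fin n → Bool => ∃ v, ∀ w, E v w = false).card
      ≤ 2 ^ n * ∑ v : Fin n, (Fintype.piFinset fun u : Fin n =>
        if u = v then ({fun _ => false} : Finset (Fin n → Bool)) else Finset.univ).card := by
        refine Nat.mul_le_mul_left _ ((Finset.card_le_card hsub).trans Finset.card_biUnion_le)
    _ = ∑ v : Fin n, 2 ^ (n * n) := by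
        rw [Finset.mul_sum]
        exact Finset.sum_congr rfl fun v _ => hcard v
    _ = n * 2 ^ (n * n) := by
        rw [Finset.sum_const, Finset.card_univ, Fintype.card_fin, smul_eq_mul]

end Pool.DPG
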