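import Pool.Agent.H59.PG.Defs

/-!
# Parity games on a directed graph: definition
-/

set_option autoImplicit false

namespace Pool.DPG

open Pool.PG

/-- The parity game on the directed graph `E` with the vertices `0, ..., n - 1` (`E v w = true` if
there is an edge from `v` to `w`), with the owners `o` and the priorities `p`. -/
def dgame {n : ℕ} (o : Fin n → Bool) (p : Fin n → ℕ) (E : Fin n → Fin n → Bool) : Game :=
  List.ofFn fun v => ((o v, p v), ((List.finRange n).filter fun w => E v w).map fun w => (w : ℕ))

end Pool.DPG
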