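import Pool.Agent.H5.DPG.Defs
import Pool.Agent.H59.PG.BinDefs

/-!
# Parity games on almost all directed graphs: the algorithm and the rows of the board `dpg`

THEOREM.  There is a polynomial time algorithm which is never wrong and which solves, for all but a
proportion `C / n` of the directed graphs with `n` vertices, ALL parity games on this graph (all
owners, all priorities).

Idea.  In a dense graph (`Den`) an attractor closed set of the player `j` with `8 K` vertices contains
all but `K` vertices of `j`, and a trap for `i` with `K` vertices of `i` misses less than `8 K`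
vertices (`K` about `4 log n`).  Zielonka's algorithm: `A` = attractor to the vertices of the most
important priority, of its player `i`; solve `X \ A`; if the other player `j` wins something there,
let `B` be its attractor, solve `X \ B`.  Before this step, the small winning regions are found and
removed (`fnd`): they are contained in a set `Tj` of at most `72 K` vertices, which is solved by
dynamic programming over all subsets (`bru`).  So `B` has at least `8 K` vertices, and `X \ B` has
less than `K` vertices of `j`: it is solved by the same procedure of a lower level (`lev`), for which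
the second call has less than `8 K` vertices and is solved by `bru`.

Sets of vertices are lists of truth values (masks) of length `g.length`; winners are given by a list
of labels (`true` = `◇`), the empty list means `unknown`.

Row `XXX` is a theorem `Pool.DPG.xxx_thm (h1 : AAAStmt) ... : XXXStmt` (the needs of the row in the
order of the table; unused ones may be dropped) in `Pool/Agent/H<k>/DPG/XXX.lean`.  `PG.YYY` is
`Pool.PG.YYYStmt`, which is already proved; take it as a hypothesis.
-/

set_option autoImplicit false

namespace Pool.DPG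

open Filter TMLib Pool.PG

/-! ## The algorithm -/

/-- The mask of `{v < n | f v}`. -/
def msk (n : ℕ) (f : ℕ → Bool) : List Bool := (List.range n).map f

/-- The number of elements of a mask. -/
def cnt (X : List Bool) : ℕ := (X.filter fun b => b).length

/-- Difference `X \ Y`. -/
def dif (g : Game) (X Y : List Bool) : List Bool :=
  msk g.length fun v => X.getD v false && !Y.getD v false

/-- One step of the attractor of `i` in `X`. -/
def ats (i : Bool) (g : Game) (X T : List Bool) : List Bool :=
  msk g.length fun v => X.getD v false && (T.getD v false ||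
    (if own g v = i then (suc g v).any fun w => T.getD w false
      else (suc g v).all fun w => !X.getD w false || T.getD w false))

/-- The attractor of `i` to `T` (more precisely to the intersection of `X` and `T`) in `X`. -/
def att (i : Bool) (g : Game) (X T : List Bool) : List Bool :=
  (ats i g X)^[g.length] (msk g.length fun v => X.getD v false && T.getD v false)

/-- The most important (= smallest) priority in `X`. -/
def mp (g : Game) (X : List Bool) : ℕ :=
  mnl (((List.range g.length).filter fun v => X.getD v false).map fun v => pri g v)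

/-- The vertices of `X` of the most important priority. -/
def tp (g : Game) (X : List Bool) : List Bool :=
  msk g.length fun v => X.getD v false && decide (pri g v = mp g X)

/-- The player who likes the most important priority. -/
def pl (g : Game) (X : List Bool) : Bool := evb (mp g X)

/-- The attractor of this player to these vertices. -/
def nA (g : Game) (X : List Bool) : List Bool := att (pl g X) g X (tp g X)

/-- The vertices of `X \ nA g X` with the label of the other player. -/
def bad (g : Game) (X L : List Bool) : List Bool :=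
  msk g.length fun v => (dif g X (nA g X)).getD v false && (L.getD v false != pl g X)

/-- The vertices of `B` are won by `j`, the others by `L`. -/
def jn (g : Game) (j : Bool) (B L : List Bool) : List Bool :=
  if L = [] then [] else msk g.length fun v => if B.getD v false = true then j else L.getD v false

/-- Zielonka's step: `L` are the labels of `X \ nA g X`, `S` solves the second game. -/
def zs (g : Game) (S : List Bool → List Bool) (X L : List Bool) : List Bool :=
  if L = [] then [] else
  if ((bad g X L).any fun b => b) = false then msk g.length fun _ => pl g X else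
  jn g (!pl g X) (att (!pl g X) g X (bad g X L)) (S (dif g X (att (!pl g X) g X (bad g X L))))

/-- The submasks of `X`, smaller ones first, if there are at most `cap` of them (the list is cut
otherwise). -/
def sbs (cap : ℕ) (X : List Bool) : List (List Bool) :=
  X.foldr (fun b T => (T.map (List.cons false) ++
    if b = true then T.map (List.cons true) else []).take cap) [[]]

/-- Look up a mask in a table. -/
def lk (tb : List (List Bool × List Bool)) (X : List Bool) : List Bool :=
  ((tb.filter fun e => decide (e.1 = X)).map Prod.snd).headD []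

/-- The entry of the table for `Z`. -/
def ent (g : Game) (tb : List (List Bool × List Bool)) (Z : List Bool) : List Bool :=
  if (Z.any fun b => b) = false then msk g.length fun _ => true else
  zs g (lk tb) Z (lk tb (dif g Z (nA g Z)))

/-- The table for the masks of a list. -/
def tab (g : Game) (l : List (List Bool)) : List (List Bool × List Bool) :=
  l.foldl (fun tb Z => tb ++ [(Z, ent g tb Z)]) []

/-- Dynamic programming over all subsets; it works if `2 ^ cnt X ≤ (g.length + 2) ^ c`. -/
def bru (c : ℕ) (g : Game) (X : List Bool) : List Bool :=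
  lk (tab g (sbs ((g.length + 2) ^ c) X)) X

/-- The vertices of `X` with less than `s` predecessors in `X` owned by `j` and, if they are owned by
the other player, less than `s` successors in `X`. -/
def Tj (g : Game) (X : List Bool) (j : Bool) (s : ℕ) : List Bool :=
  msk g.length fun v => X.getD v false &&
    decide (((List.range g.length).filter fun u =>
      X.getD u false && (own g u == j) && decide (v ∈ suc g u)).length < s) &&
    ((own g v == j) || decide (((List.range g.length).filter fun w =>
      X.getD w false && decide (w ∈ suc g v)).length < s))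

/-- The largest part of `Tj` which the other player cannot leave. -/
def Yj (g : Game) (X : List Bool) (j : Bool) (s : ℕ) : List Bool :=
  dif g X (att (!j) g X (dif g X (Tj g X j s)))

/-- The vertices of `Yj` won by `j` in `Yj`, if `bru` solves `Yj`. -/
def cnd (c : ℕ) (g : Game) (X : List Bool) (j : Bool) (s : ℕ) : List Bool :=
  if bru c g (Yj g X j s) = [] then [] else
  msk g.length fun v => (Yj g X j s).getD v false && ((bru c g (Yj g X j s)).getD v false == j)

/-- The nonempty sets `cnd`, with the player. -/
def fnd (c : ℕ) (g : Game) (X : List Bool) : List (Bool × List Bool) :=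
  ((List.range (g.length + 1)).flatMap fun s =>
    [(true, cnd c g X true s), (false, cnd c g X false s)]).filter fun q => q.2.any fun b => b

/-- The first of them. -/
def fs1 (c : ℕ) (g : Game) (X : List Bool) : Bool × List Bool := (fnd c g X).headD (true, [])

/-- The set of the first recursive call. -/
def nxt (c : ℕ) (g : Game) (X : List Bool) : List Bool :=
  if fnd c g X = [] then dif g X (nA g X)
  else dif g X (att (fs1 c g X).1 g X (fs1 c g X).2)

/-- The labels of `X` from the labels `L` of `nxt c g X`; `S` is used for the second call. -/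
def up (c : ℕ) (S : Game → List Bool → List Bool) (g : Game) (X L : List Bool) : List Bool :=
  if bru c g X ≠ [] then bru c g X else
  if fnd c g X = [] then zs g (S g) X L
  else jn g (fs1 c g X).1 (att (fs1 c g X).1 g X (fs1 c g X).2) L

/-- The recursion. -/
def rc (c : ℕ) (S : Game → List Bool → List Bool) (g : Game) : ℕ → List Bool → List Bool
  | 0, _ => []
  | t + 1, X => up c S g X (rc c S g t (nxt c g X))

/-- The solver of the next level. -/
def lev (c : ℕ) (S : Game → List Bool → List Bool) (g : Game) (X : List Bool) : List Bool :=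
  rc c S g (g.length + 1) X

/-- The algorithm. -/
def sv (c : ℕ) (g : Game) : List Bool := lev c (lev c (bru c)) g (msk g.length fun _ => true)

/-! ## Abstract games (`SolS` of `Pool.PG`: `W`, `σ` solve the game on the set `S`) -/

/-- `A` is the attractor of `i` to `U` in `S`. -/
def IsAtr {V : Type} (own : V → Bool) (E : V → V → Prop) (i : Bool) (S U A : Finset V) : Prop :=
  U ⊆ A ∧ A ⊆ S ∧
  (∃ (α : V → V) (ρ : V → ℕ),
    (∀ v ∈ A, v ∉ U → own v = i → α v ∈ A ∧ E v (α v) ∧ ρ (α v) < ρ v) ∧
    (∀ v ∈ A, v ∉ U → own v ≠ i → ∀ w ∈ S, E v w → w ∈ A ∧ ρ w < ρ v)) ∧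
  (∀ v ∈ S, v ∉ A → own v = i → ∀ w ∈ S, E v w → w ∉ A) ∧
  (∀ v ∈ S, v ∉ A → own v ≠ i → ∃ w ∈ S, w ∉ A ∧ E v w)

/-- `B` is a region of `S` which the player `!j` cannot leave and in which `j` wins everywhere. -/
def Dmn {V : Type} (own : V → Bool) (pri : V → ℕ) (E : V → V → Prop) (S : Finset V) (j : Bool)
    (B : Finset V) : Prop :=
  B ⊆ S ∧ (∀ v ∈ B, own v ≠ j → ∀ w ∈ S, E v w → w ∈ B) ∧
  ∃ σ : V → V, SolS own pri E B (fun _ => j) σ

open Classical in
/-- **DMA** (90). The attractor of a winning region.  `Y ⊆ S` is a set which `!j` cannot leave, solved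
by `W`, `σ`; `D` the part won by `j`; `B` the attractor of `j` to `D` in `S`.  (Follow `σ` in `D`, `α` in
`B \ D`; the play is in `D` after at most `ρ` steps, and stays there by `stay`, `trap`.) -/
def DMAStmt : Prop :=
  ∀ (V : Type) (own : V → Bool) (pri : V → ℕ) (E : V → V → Prop) (S Y B : Finset V) (j : Bool)
    (W : V → Bool) (σ : V → V), (∀ v ∈ S, ∃ w ∈ S, E v w) → Y ⊆ S →
    (∀ v ∈ Y, own v ≠ j → ∀ w ∈ S, E v w → w ∈ Y) →
    SolS own pri E Y W σ → IsAtr own E j S (Y.filter fun v => W v = j) B →
    Dmn own pri E S j B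

open Classical in
/-- **ZRM** (100). Removal of a closed region `B` won by `j`: then `S \ B` is solved separately.  (The
strategy is that of `B` in `B` and that of `S \ B` in `S \ B`.  A play in the part won by `j` which
follows the strategy of `j` is in `S \ B` for ever, or in `B` from some time on.  A play from `S \ B`
in the part won by `!j` stays in `S \ B`, as the vertices of `j` have no successors in `B`.) -/
def ZRMStmt : Prop :=
  ∀ (V : Type) (own : V → Bool) (pri : V → ℕ) (E : V → V → Prop) (S B : Finset V) (j : Bool)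
    (W : V → Bool) (σ : V → V), Dmn own pri E S j B →
    (∀ v ∈ S, v ∉ B → own v = j → ∀ w ∈ S, E v w → w ∉ B) →
    SolS own pri E (S \ B) W σ →
    ∃ σ' : V → V, SolS own pri E S (fun v => if v ∈ B then j else W v) σ'

open Classical in
/-- **ZTP** (90). If `i` likes the smallest priority `p` of `S` and wins everywhere outside of the
attractor `A` to the vertices with this priority, `i` wins everywhere.  (Case 1 of `DTA` in
`Pool/Agent/H63/PG/DTA.lean`.) -/
def ZTPStmt : Prop :=
  ∀ (V : Type) (own : V → Bool) (pri : V → ℕ) (E : V → V → Prop) (S A : Finset V) (i : Bool) (p : ℕ)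
    (W : V → Bool) (σ : V → V), (∀ v ∈ S, ∃ w ∈ S, E v w) → (∀ v ∈ S, p ≤ pri v) →
    (Even p ↔ i = true) → IsAtr own E i S (S.filter fun v => pri v = p) A →
    SolS own pri E (S \ A) W σ → (∀ v ∈ S \ A, W v = i) →
    ∃ σ' : V → V, SolS own pri E S (fun _ => i) σ'

/-- **DMW** (60). The vertices of a region won by `j` are won by `j` in every solution.  (If
`W v = !j`, let `j` follow the strategy of `B` and `!j` the strategy of `S`, from `v`; this play stays in
`B` and in `W = !j`, and it is won by both players.) -/
def DMWStmt : Prop :=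
  ∀ (V : Type) (own : V → Bool) (pri : V → ℕ) (E : V → V → Prop) (S B : Finset V) (j : Bool)
    (W : V → Bool) (σ : V → V), Dmn own pri E S j B → SolS own pri E S W σ → ∀ v ∈ B, W v = j

/-! ## Masks -/

/-- The set of a mask. -/
def fs (g : Game) (X : List Bool) : Finset ℕ :=
  (Finset.range g.length).filter fun v => X.getD v false = true

/-- `X` is the mask of a subgame. -/
def Sub (g : Game) (X : List Bool) : Prop :=
  X.length = g.length ∧ ∀ v ∈ fs g X, ∃ w ∈ fs g X, w ∈ suc g v

/-- `L` are the winners of the vertices of `X` in the subgame `X`. -/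
def Lab (g : Game) (X L : List Bool) : Prop :=
  L.length = g.length ∧ ∃ σ : ℕ → ℕ,
    SolS (own g) (pri g) (fun v w => w ∈ suc g v) (fs g X) (fun v => L.getD v false) σ

/-- `S` is never wrong for `g`. -/
def Snd (g : Game) (S : List Bool → List Bool) : Prop := ∀ X, Sub g X → S X ≠ [] → Lab g X (S X)

/-- **ATL** (90). The attractor, as a list.  (The iterates increase and are contained in `X`; the last
one is a fixed point of `ats`, as there are at most `g.length` strict inclusions.  `ρ v` = the first
iterate which contains `v`; `α v` = a successor in the previous iterate.) -/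
def ATLStmt : Prop :=
  ∀ (g : Game) (i : Bool) (X T : List Bool), X.length = g.length →
    (att i g X T).length = g.length ∧
    IsAtr (own g) (fun v w => w ∈ suc g v) i (fs g X) (fs g X ∩ fs g T) (fs g (att i g X T))

/-- **FSB** (40). Basic facts on masks. -/
def FSBStmt : Prop :=
  (∀ (g : Game) (f : ℕ → Bool), (msk g.length f).length = g.length ∧
    fs g (msk g.length f) = (Finset.range g.length).filter fun v => f v = true) ∧
  (∀ (g : Game) (X Y : List Bool), fs g (dif g X Y) = fs g X \ fs g Y) ∧
  (∀ (g : Game) (X : List Bool), X.length = g.length → cnt X = (fs g X).card ∧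
    ((X.any fun b => b) = true ↔ (fs g X).Nonempty)) ∧
  (∀ (g : Game) (X Y : List Bool), X.length = g.length → Y.length = g.length →
    fs g X = fs g Y → X = Y)

/-- **DSB** (30, needs ATL, FSB). The complement of an attractor is a subgame, which `i` cannot
leave. -/
def DSBStmt : Prop :=
  ∀ (g : Game) (i : Bool) (X T : List Bool), Sub g X → Sub g (dif g X (att i g X T)) ∧
    ∀ v ∈ fs g (dif g X (att i g X T)), own g v = i → ∀ w ∈ fs g X, w ∈ suc g v →
      w ∈ fs g (dif g X (att i g X T))

/-- **MPR** (40, needs FSB). The most important priority. -/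
def MPRStmt : Prop :=
  ∀ (g : Game) (X : List Bool), (fs g X).Nonempty → (∀ v ∈ fs g X, mp g X ≤ pri g v) ∧
    fs g (tp g X) = (fs g X).filter (fun v => pri g v = mp g X) ∧ (fs g (tp g X)).Nonempty ∧
    (Even (mp g X) ↔ pl g X = true)

/-- **BDM** (60, needs DMA, ATL, FSB, DSB). The region of the second case of `zs`.  (`DMA` with
`Y = X \ nA g X`, `j = !pl g X`.) -/
def BDMStmt : Prop :=
  ∀ (g : Game) (X L : List Bool), Sub g X → Lab g (dif g X (nA g X)) L →
    Dmn (own g) (pri g) (fun v w => w ∈ suc g v) (fs g X) (!pl g X)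
      (fs g (att (!pl g X) g X (bad g X L))) ∧
    ((bad g X L).any (fun b => b) = true →
      (fs g (att (!pl g X) g X (bad g X L))).Nonempty)

/-- **ZSS** (70, needs ZRM, ZTP, ATL, FSB, DSB, MPR, BDM). Soundness of Zielonka's step. -/
def ZSSStmt : Prop :=
  ∀ (g : Game) (S : List Bool → List Bool) (X L : List Bool), Sub g X → (fs g X).Nonempty →
    (L ≠ [] → Lab g (dif g X (nA g X)) L) → Snd g S → zs g S X L ≠ [] → Lab g X (zs g S X L)

/-- **BRS** (60, needs ZSS, FSB, DSB). Soundness of `bru`: all entries `(Z, L)` of the table with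
`Sub g Z` and `L ≠ []` satisfy `Lab g Z L`.  (For the empty set, `SolS` is trivial.) -/
def BRSStmt : Prop := ∀ (c : ℕ) (g : Game), Snd g (bru c g)

/-- **SBS** (80). The list of the submasks.  `Z ≤ X`: `Z.length = X.length` and `Z v → X v`.  (The
elements of the list for `b :: X` are `false :: Z`, then `true :: Z`; nothing is cut if
`2 ^ cnt X ≤ cap`.) -/
def SBSStmt : Prop :=
  (∀ (cap : ℕ) (X : List Bool), (sbs cap X).length ≤ cap + 1 ∧
    ∀ Z ∈ sbs cap X, Z.length = X.length) ∧
  ∀ (cap : ℕ) (X : List Bool), 2 ^ cnt X ≤ cap →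
    (∀ Z : List Bool, Z.length = X.length → (∀ v, Z.getD v false = true → X.getD v false = true) →
      Z ∈ sbs cap X) ∧
    ∀ (l₁ l₂ : List (List Bool)) (Z Z' : List Bool), sbs cap X = l₁ ++ Z :: l₂ →
      Z'.length = X.length → (∀ v, Z'.getD v false = true → Z.getD v false = true) → Z' ≠ Z →
      Z' ∈ l₁

/-- **BRC** (90, needs SBS, ATL, FSB, DSB, MPR). Completeness of `bru`.  (All entries for the
subgames `Z ≤ X` are nonempty: the sets `dif g Z (nA g Z)` and `dif g Z (att ..)` are subgames and
proper subsets of `Z` (the attractor contains `tp g Z`, or `bad ..`, which is not empty), so they are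
before `Z` in the list, so in the table.) -/
def BRCStmt : Prop :=
  ∀ (c : ℕ) (g : Game) (X : List Bool), 0 < g.length → Sub g X → 2 ^ cnt X ≤ (g.length + 2) ^ c →
    bru c g X ≠ []

/-- **FDS** (80, needs DMA, ZRM, ATL, FSB, DSB, BRS). The regions which are found. -/
def FDSStmt : Prop :=
  ∀ (c : ℕ) (g : Game) (X : List Bool), Sub g X → ∀ q ∈ fnd c g X,
    (fs g (att q.1 g X q.2)).Nonempty ∧
    Dmn (own g) (pri g) (fun v w => w ∈ suc g v) (fs g X) q.1 (fs g (att q.1 g X q.2)) ∧
    ∀ L : List Bool, L ≠ [] → Lab g (dif g X (att q.1 g X q.2)) L →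
      Lab g X (jn g q.1 (att q.1 g X q.2) L)

/-- **RCS** (60, needs FDS, ZSS, DSB, BRS, FSB, BRC). Soundness of the recursion.  (Induction on `t`.
If `X` is empty and `0 < g.length`, `bru c g X ≠ []` by `BRC`; if `g = []`, the lists `msk`, `jn` and
`zs` are empty.) -/
def RCSStmt : Prop :=
  ∀ (c : ℕ) (S : Game → List Bool → List Bool) (g : Game), Snd g (S g) →
    ∀ t : ℕ, Snd g (rc c S g t)

/-! ## Dense graphs -/

/-- The graph of `g` is dense. -/
def Den (g : Game) (K : ℕ) : Prop :=
  ∀ k, K ≤ k → ∀ A B : Finset ℕ, A ⊆ Finset.range g.length → B ⊆ Finset.range g.length →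
    k ≤ A.card → 8 * k ≤ B.card →
    (∃ a ∈ A, k ≤ (B.filter fun b => b ∈ suc g a).card) ∧
    (∃ a ∈ A, k ≤ (B.filter fun b => a ∈ suc g b).card)

/-- The vertices of `X` of the player `j`. -/
def fo (g : Game) (X : List Bool) (j : Bool) : Finset ℕ := (fs g X).filter fun v => own g v = j

/-- `B` is closed under the attractor of `j` in `X`. -/
def Cls (g : Game) (X : List Bool) (j : Bool) (B : Finset ℕ) : Prop :=
  ∀ v ∈ fs g X, v ∉ B → own g v = j → ∀ w ∈ fs g X, w ∈ suc g v → w ∉ B

/-- **TJC** (60, needs FSB). The set `Tj` is small.  (`Den` with `k = 8 K`.  If `fo g X j` has at least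
`64 K` elements, `A = Tj`, `B = fo g X j`, second part; so `Tj` has less than `8 K` elements.
Otherwise `A` = the part of `Tj` owned by `!j`, `B = fs g X`, first part.) -/
def TJCStmt : Prop :=
  ∀ (g : Game) (K : ℕ) (X : List Bool) (j : Bool), Den g K → 64 * K ≤ (fs g X).card →
    (fs g (Tj g X j (8 * K))).card ≤ 72 * K

/-- **BTJ** (50, needs FSB). A small closed region is contained in `Tj`.  (The predecessors of
`v ∈ B` in `X` owned by `j` are in `B`; if `v` is not owned by `j` its successors in `X` are in `B`.) -/
def BTJStmt : Prop :=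
  ∀ (g : Game) (X : List Bool) (j : Bool) (s : ℕ) (B : Finset ℕ),
    Dmn (own g) (pri g) (fun v w => w ∈ suc g v) (fs g X) j B → Cls g X j B → B.card < s →
    B ⊆ fs g (Tj g X j s)

/-- **BYJ** (50, needs ATL, FSB). Then it is contained in `Yj`, and a region there.  (`B` is disjoint
from the attractor `A` of `!j` to `X \ Tj`: take `v ∈ A ∩ B` with the smallest rank `ρ v`; a vertex of `B`
owned by `!j` has all its successors in `B`, one owned by `j` has one in `B`.) -/
def BYJStmt : Prop :=
  ∀ (g : Game) (X : List Bool) (j : Bool) (s : ℕ) (B : Finset ℕ), X.length = g.length →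
    Dmn (own g) (pri g) (fun v w => w ∈ suc g v) (fs g X) j B → B ⊆ fs g (Tj g X j s) →
    Dmn (own g) (pri g) (fun v w => w ∈ suc g v) (fs g (Yj g X j s)) j B

/-- **SMD** (80, needs TJC, BTJ, BYJ, FSB, DSB, BRC, BRS, DMW, ATL). If nothing is found, closed
regions have at least `8 K` vertices.  (Otherwise take `s = 8 K ≤ g.length`; `Yj ⊆ Tj` has at most
`72 K` elements, so `bru` solves it, and the vertices of `B` have the label `j` there by `DMW`.) -/
def SMDStmt : Prop :=
  ∀ (c : ℕ) (g : Game) (K : ℕ) (X : List Bool) (j : Bool) (B : Finset ℕ), 0 < g.length →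
    Den g K → 2 ^ (72 * K) ≤ (g.length + 2) ^ c → Sub g X → 64 * K ≤ (fs g X).card →
    fnd c g X = [] → B.Nonempty →
    Dmn (own g) (pri g) (fun v w => w ∈ suc g v) (fs g X) j B → Cls g X j B → 8 * K ≤ B.card

/-- **BIG** (30). A closed region with `8 K` vertices contains all but `K` vertices of `j`. -/
def BIGStmt : Prop :=
  ∀ (g : Game) (K : ℕ) (X : List Bool) (j : Bool) (B : Finset ℕ), 1 ≤ K → Den g K →
    B ⊆ fs g X → Cls g X j B → 8 * K ≤ B.card → (fo g X j \ B).card < K

/-- **TRP** (40, needs BIG). If one of the players has less than `K` vertices in `X`, less than `8 K`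
vertices are not in `B`.  (If it is `j`: `B` has at least `K` vertices of `!j`, which have no successors
outside of `B`.  If it is `!j`: `BIG`.) -/
def TRPStmt : Prop :=
  ∀ (g : Game) (K : ℕ) (X : List Bool) (j q : Bool) (B : Finset ℕ), 1 ≤ K → Den g K →
    Dmn (own g) (pri g) (fun v w => w ∈ suc g v) (fs g X) j B → Cls g X j B → 8 * K ≤ B.card →
    (fo g X q).card < K → (fs g X \ B).card < 8 * K

/-- **LVC** (100, needs SMD, BDM, FDS, RCS, BRC, DSB, ATL, FSB, MPR). Completeness of one level.  (Induction
on `t`.  If `bru c g X = []` then `2 ^ (72 K) < 2 ^ cnt X` by `BRC`, so `64 K ≤ cnt X`.  The set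
`nxt c g X` is a subgame with fewer vertices (`FDS`, `MPR`).  In the second case of `zs`, `BDM` and `SMD`
give `8 K ≤ B.card` (`ATL`: `Cls`).  `P` is hereditary.) -/
def LVCStmt : Prop :=
  ∀ (c : ℕ) (S : Game → List Bool → List Bool) (g : Game) (K : ℕ) (P : Finset ℕ → Prop),
    0 < g.length → 1 ≤ K → Den g K → 2 ^ (72 * K) ≤ (g.length + 2) ^ c → Snd g (S g) →
    (∀ F F' : Finset ℕ, F' ⊆ F → P F → P F') →
    (∀ (X B' : List Bool) (j : Bool), Sub g X → P (fs g X) → Sub g (dif g X B') →
      fs g B' ⊆ fs g X → Dmn (own g) (pri g) (fun v w => w ∈ suc g v) (fs g X) j (fs g B') →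
      Cls g X j (fs g B') → 8 * K ≤ (fs g B').card → S g (dif g X B') ≠ []) →
    ∀ (t : ℕ) (X : List Bool), Sub g X → P (fs g X) → cnt X < t → rc c S g t X ≠ []

/-- **LV1** (50, needs LVC, TRP, BRC, BRS, FSB). The first level solves the games in which some player
has less than `K` vertices. -/
def LV1Stmt : Prop :=
  ∀ (c : ℕ) (g : Game) (K : ℕ) (X : List Bool) (q : Bool), 0 < g.length → 1 ≤ K → Den g K →
    2 ^ (72 * K) ≤ (g.length + 2) ^ c → Sub g X → (fo g X q).card < K → lev c (bru c) g X ≠ []

/-- **LV2** (50, needs LVC, LV1, BIG, RCS, BRS, FSB). The second level solves all subgames. -/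
def LV2Stmt : Prop :=
  ∀ (c : ℕ) (g : Game) (K : ℕ), 0 < g.length → 1 ≤ K → Den g K →
    2 ^ (72 * K) ≤ (g.length + 2) ^ c → Valid g → sv c g ≠ []

/-- **TOP** (50, needs RCS, BRS, FSB, PG.WIN). Soundness of the algorithm.  (`SolS` on all vertices is
`Sol`, as in `Pool/Agent/H99/PG/DET.lean`.) -/
def TOPStmt : Prop :=
  ∀ (c : ℕ) (g : Game), Valid g → sv c g ≠ [] → (sv c g).length = g.length ∧
    ∀ v < g.length, Win g ((sv c g).getD v false) v

/-! ## Polynomial time -/

/-- **PMA** (70, needs PG.PV1). Masks and attractors. -/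
def PMAStmt : Prop :=
  PTime (fun p : Game × List Bool × List Bool => dif p.1 p.2.1 p.2.2) ∧
  (∀ i : Bool, PTime (fun p : Game × List Bool × List Bool => att i p.1 p.2.1 p.2.2)) ∧
  PTime (fun p : Game × List Bool => mp p.1 p.2) ∧
  PTime (fun p : Game × List Bool => tp p.1 p.2) ∧
  PTime (fun p : Game × List Bool => pl p.1 p.2) ∧
  PTime (fun p : Game × List Bool => nA p.1 p.2) ∧
  PTime (fun p : Game × List Bool × List Bool => bad p.1 p.2.1 p.2.2)

/-- **PZS** (50, needs PMA). Zielonka's step; `S` may depend on a parameter. -/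
def PZSStmt : Prop :=
  ∀ (α : Type) [Enc α] (S : α → List Bool → List Bool) (G : α → Game) (X L : α → List Bool),
    PTime (fun p : α × List Bool => S p.1 p.2) → PTime G → PTime X → PTime L →
    PTime (fun a => zs (G a) (S a) (X a) (L a))

/-- **PSB** (50). The list of the submasks. -/
def PSBStmt : Prop := PTime (fun p : ℕ × List Bool => sbs p.1 p.2)

/-- **PBR** (80, needs PZS, PSB, PMA, SBS). `bru`.  (Fold with states of polynomial size: at most
`cap + 1` entries, each a list of length `X.length` and a list of length at most `g.length`.) -/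
def PBRStmt : Prop := ∀ c : ℕ, PTime (fun p : Game × List Bool => bru c p.1 p.2)

/-- **PFN** (60, needs PMA, PBR, PG.PV1). The regions which are found. -/
def PFNStmt : Prop :=
  ∀ c : ℕ, PTime (fun p : Game × List Bool => fnd c p.1 p.2) ∧
    PTime (fun p : Game × List Bool => nxt c p.1 p.2) ∧
    PTime (fun p : Game × List Bool => fs1 c p.1 p.2)

/-- **PUP** (40, needs PFN, PZS, PBR, PMA). One step of the recursion. -/
def PUPStmt : Prop :=
  ∀ (c : ℕ) (S : Game → List Bool → List Bool), PTime (fun p : Game × List Bool => S p.1 p.2) →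
    PTime (fun p : Game × List Bool × List Bool => up c S p.1 p.2.1 p.2.2)

/-- **PLV** (80, needs PUP, PFN). A level.  (`rc c S g t X = (List of the (nxt c g)^[k] X, k < t)
.foldr (up c S g) []`; the states have length at most that of `g`.  A row of helper lemmas on the
lengths of `up` and `nxt` may be needed: all lists are `[]` or of length `g.length`, except that
`bru c g X` is an entry of the table, which is also of this form.) -/
def PLVStmt : Prop :=
  ∀ (c : ℕ) (S : Game → List Bool → List Bool), PTime (fun p : Game × List Bool => S p.1 p.2) →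
    PTime (fun p : Game × List Bool => lev c S p.1 p.2)

/-! ## Counting graphs -/

/-- The graph `E` is dense. -/
def DenE {n : ℕ} (K : ℕ) (E : Fin n → Fin n → Bool) : Prop :=
  ∀ k, K ≤ k → ∀ A B : Finset (Fin n), k ≤ A.card → 8 * k ≤ B.card →
    (∃ a ∈ A, k ≤ (B.filter fun b => E a b = true).card) ∧
    (∃ a ∈ A, k ≤ (B.filter fun b => E b a = true).card)

/-- **CMG** (80). The game `cmp (dgame o p E)`.  (`suc (cmp (dgame o p E)) v` is the list of the `w` with
`E v w`, as `min w n = w`.) -/
def CMGStmt : Prop :=
  ∀ (n K : ℕ) (o : Fin n → Bool) (p : Fin n → ℕ) (E : Fin n → Fin n → Bool), DenE K E →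
    (∀ v, ∃ w, E v w = true) → (cmp (dgame o p E)).length = n ∧ Den (cmp (dgame o p E)) K ∧
    Valid (cmp (dgame o p E))

/-- **CSB** (50). Few small subsets.  (`∑_(j < k) C(8 k, j) ≤ 4 ^ k ∑_j C(8 k, j) (1 / 4) ^ j =
(4 (5 / 4) ^ 8) ^ k ≤ 24 ^ k`.) -/
def CSBStmt : Prop :=
  ∀ (V : Type) [Fintype V] [DecidableEq V] (k : ℕ) (B : Finset V), B.card = 8 * k →
    (B.powerset.filter fun T => T.card < k).card ≤ 2 ^ (5 * k)

open Classical in
/-- **CRW** (80, needs CSB). The number of the graphs in which all `a ∈ A` have less than `k`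
successors (predecessors) in `B`.  (The rows `E a`, `a ∈ A`, have at most
`2 ^ (5 k) 2 ^ (n - 8 k)` values each.) -/
def CRWStmt : Prop :=
  ∀ (n k : ℕ) (A B : Finset (Fin n)), A.card = k → B.card = 8 * k →
    2 ^ (3 * k * k) * (Finset.univ.filter fun E : Fin n → Fin n → Bool =>
      ∀ a ∈ A, (B.filter fun b => E a b = true).card < k).card ≤ 2 ^ (n * n) ∧
    2 ^ (3 * k * k) * (Finset.univ.filter fun E : Fin n → Fin n → Bool =>
      ∀ a ∈ A, (B.filter fun b => E b a = true).card < k).card ≤ 2 ^ (n * n)

open Classical in
/-- **CDN** (90, needs CRW). The graphs which are not dense, `K = 4 l`, `n < 2 ^ l`.  (If `DenE` fails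
there are `k ≥ K` (`8 k ≤ n`) and subsets `A`, `B` with exactly `k`, `8 k` elements as in `CRW`; there
are at most `n ^ (9 k) ≤ 2 ^ (9 l k)` of them, and `9 l k ≤ 9 k ^ 2 / 4`.  So the number is at most
`∑_(k = 4 l)^n 2 * 2 ^ (9 l k - 3 k ^ 2) 2 ^ (n n) ≤ n * 2 * 2 ^ (- 12 l ^ 2) 2 ^ (n n)`.) -/
def CDNStmt : Prop :=
  ∀ (n l : ℕ), 1 ≤ l → n < 2 ^ l →
    2 ^ (12 * l * l) * (Finset.univ.filter fun E : Fin n → Fin n → Bool => ¬ DenE (4 * l) E).card ≤
      2 * n * 2 ^ (n * n)

open Classical in
/-- **CNS** (40). The graphs in which some vertex has no successor. -/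
def CNSStmt : Prop :=
  ∀ n : ℕ, 2 ^ n * (Finset.univ.filter fun E : Fin n → Fin n → Bool =>
    ∃ v, ∀ w, E v w = false).card ≤ n * 2 ^ (n * n)

open Classical in
/-- **FIN** (90, needs TOP, LV2, PLV, PBR, CMG, CDN, CNS, PG.BOT, PG.CMW). The theorem, with
`A g = sv 576 (cmp g)`.  (`l = Nat.log 2 n + 1`, `K = 4 l`: `2 ^ (72 K) = (2 ^ l) ^ 288 ≤ (2 n) ^ 288
≤ (n + 2) ^ 576`.  `n * 2 n ≤ 2 * 2 ^ (12 l l)` and `n * n ≤ 2 * 2 ^ n`.) -/
def FINStmt : Prop :=
  ∃ A : Game → List Bool, N68a2faeb.IsPolyTime A ∧
    (∀ g : Game, Valid g → A g ≠ [] → (A g).length = g.length ∧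
      ∀ v < g.length, Win g ((A g).getD v false) v) ∧
    ∃ C : ℝ, ∀ n : ℕ, (n : ℝ) * (Finset.univ.filter fun E : Fin n → Fin n → Bool =>
      ∃ (o : Fin n → Bool) (p : Fin n → ℕ), A (dgame o p E) = []).card ≤ C * 2 ^ (n * n)

end Pool.DPG
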